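import Pool.Agent.Y997.NW.Stm

/-! # Project NW, jobs ON1 and BD: translates of the tropical current and thin bumps -/

set_option autoImplicit false

open MeasureTheory Set Topology Filter
open scoped ContDiff NNReal ENNReal

namespace Pool.Agent.Y929.NW

open Pool.Agent.W581.Cyc Pool.Agent.Y997.NW

theorem ev_thin (v p : C2) (δ : ℝ) (n : ℕ) (z e : C2) :
    ev (thinForm v p δ n).1 z e = thin v p δ n z * ‖e‖ ^ 2 := by
  show (thin v p δ n z • kahler) ![e, Complex.I • e] = _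
  rw [ContinuousAlternatingMap.smul_apply, kahler_apply, smul_eq_mul]

theorem tropAt_thin (a v p : C2) (δ : ℝ) (n : ℕ) : tropAt a (thinForm v p δ n) =
    ∑ j, I3 fun b c t => thin v p δ n (pt j b c t + a) * ‖dir j‖ ^ 2 := by
  have h : tropAt a (thinForm v p δ n) =
      ∑ j, I3 fun b c t => ev (thinForm v p δ n).1 (pt j b c t + a) (dir j) := rfl
  rw [h]
  simp only [ev_thin]

theorem cs_bd (v z : C2) : 0 ≤ cs v z ∧ cs v z ≤ 1 := by
  unfold cs
  exact ⟨sq_nonneg _, Real.cos_sq_le_one _⟩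

theorem thin_bd (v p : C2) (δ : ℝ) (n : ℕ) (z : C2) :
    0 ≤ thin v p δ n z ∧ thin v p δ n z ≤ 1 := by
  unfold thin
  obtain ⟨h0, h1⟩ := cs_bd v z
  exact ⟨mul_nonneg (bump_nonneg _ _ _) (pow_nonneg h0 n),
    mul_le_one₀ (bump_le_one _ _ _) (pow_nonneg h0 n) (pow_le_one₀ h0 h1)⟩

theorem term_bd (a v p : C2) (δ : ℝ) (n : ℕ) (j : Fin 3) (b c t : ℝ) :
    0 ≤ thin v p δ n (pt j b c t + a) * ‖dir j‖ ^ 2 ∧
      thin v p δ n (pt j b c t + a) * ‖dir j‖ ^ 2 ≤ 5 := by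
  obtain ⟨h0, h1⟩ := thin_bd v p δ n (pt j b c t + a)
  obtain ⟨h2, h3⟩ := norm_dir_sq j
  refine ⟨mul_nonneg h0 h3.le, ?_⟩
  calc thin v p δ n (pt j b c t + a) * ‖dir j‖ ^ 2 ≤ 1 * 5 :=
        mul_le_mul h1 h2 h3.le zero_le_one
    _ = 5 := one_mul 5

theorem t_BD : S_BD := by
  intro a v p δ n
  rw [tropAt_thin]
  refine ⟨Finset.sum_nonneg fun j _ => I3_nonneg fun b c t => (term_bd a v p δ n j b c t).1, ?_⟩
  have h : ∀ j ∈ (Finset.univ : Finset (Fin 3)),
      (I3 fun b c t => thin v p δ n (pt j b c t + a) * ‖dir j‖ ^ 2) ≤ 5 := by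
    intro j _
    refine (le_abs_self _).trans (I3_abs_le fun b c t => ?_)
    obtain ⟨h0, h1⟩ := term_bd a v p δ n j b c t
    rw [abs_of_nonneg h0]
    exact h1
  refine (Finset.sum_le_sum h).trans ?_
  simp
  norm_num

theorem ell_add (z w : C2) : ell (z + w) = ell z + ell w := by
  unfold ell
  simp only [PiLp.add_apply]
  ring

theorem ell_pt0 (b c t : ℝ) : (ell (pt 0 b c t)).re = 0 := by
  unfold ell
  have h : (pt 0 b c t 0 + 2 * pt 0 b c t 1).re = (pt 0 b c t 0).re + 2 * (pt 0 b c t 1).re := by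
    simp
  rw [h, pt_re, pt_re]
  simp [dir]
  ring

theorem cs_one (a v : C2) (h : (ell (a - v)).re = 0) (b c t : ℝ) : cs v (pt 0 b c t + a) = 1 := by
  unfold cs
  rw [add_sub_assoc, ell_add, Complex.add_re, ell_pt0, h]
  simp

theorem t_ON1 : S_ON1 := by
  intro a v p δ ha hex
  obtain ⟨b, hb, c, hc, t, ht, hD⟩ := hex
  have hC : C3 fun b c t => bump p δ (pt 0 b c t + a) * ‖dir 0‖ ^ 2 :=
    ((contDiff_bump p δ).continuous.comp ((continuous_pt 0).add continuous_const)).mul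
      continuous_const
  refine ⟨I3 fun b c t => bump p δ (pt 0 b c t + a) * ‖dir 0‖ ^ 2, ?_, fun n => ?_⟩
  · exact I3_pos hC (fun b c t => mul_nonneg (bump_nonneg _ _ _) (sq_nonneg _)) hb hc ht
      (mul_pos ((bump_pos_iff _ _ _).2 hD) (norm_dir_sq 0).2)
  · rw [tropAt_thin]
    have h1 : (I3 fun b c t => bump p δ (pt 0 b c t + a) * ‖dir 0‖ ^ 2) =
        I3 fun b c t => thin v p δ n (pt 0 b c t + a) * ‖dir 0‖ ^ 2 := by
      congr 1
      funext b c t
      unfold thin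
      rw [cs_one a v ha, one_pow, mul_one]
    rw [h1]
    exact Finset.single_le_sum
      (f := fun j => I3 fun b c t => thin v p δ n (pt j b c t + a) * ‖dir j‖ ^ 2)
      (fun j _ => I3_nonneg fun b c t => (term_bd a v p δ n j b c t).1) (Finset.mem_univ 0)

end Pool.Agent.Y929.NW
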